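import Pool.Agent.R730.Bz.MainB

set_option autoImplicit false

namespace Pool.Agent.Results.MP_b072c6_co.TwoAdicCount

open Pool.Agent.R730.Bz

/-- The number of stone-and-bone tilings of the `(n, 2n - 3)`-benzel, `n ≥ 4`, is a 2-adically
continuous function of `n`. -/
theorem result : ∀ k : ℕ, ∃ m : ℕ, ∀ n n' : ℤ, 4 ≤ n → 4 ≤ n' → n ≡ n' [ZMOD 2 ^ m] →
    (T113 n (2 * n - 3) : ℤ) ≡ (T113 n' (2 * n' - 3) : ℤ) [ZMOD 2 ^ k] := by
  have h := to_int (F_twoAdic 1 odd_one) 2 (fun n => (T113 n (2 * n - 3) : ℤ)) (by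
    intro m hm
    show (T113 ((m : ℤ) + 2) (2 * ((m : ℤ) + 2) - 3) : ℤ) = F 1 m
    rw [show 2 * ((m : ℤ) + 2) - 3 = 2 * m + 1 by ring]
    exact T113_in (by omega))
  exact h

end Pool.Agent.Results.MP_b072c6_co.TwoAdicCount
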